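import Pool.Agent.helper73.SPV.Spec
import Pool.Agent.helper79.SHL.STP

/-!
# sp:XMA
-/

set_option autoImplicit false

namespace Pool.Agent.SPV

open Matrix Module Pool.Agent.SHL Pool.Agent.H48SL

/-- finitely generated commutative groups -/
theorem XMA_comm (hXAB : XAB_stmt) (Q : Type) [inst : Group Q] (hc : ∀ x y : Q, x * y = y * x)
    (hfg : Group.FG Q) : XG Q :=
  let i : CommGroup Q := { inst with mul_comm := hc }
  @hXAB Q i hfg

theorem XMA_triv (Q : Type) [Group Q] [Subsingleton Q] : XG Q :=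
  ⟨0, Set.toFinite (Set.univ : Set Q), trivial⟩

theorem XMA_aux (hSTR : SHL.STR_stmt) (hXAB : XAB_stmt) (hXEF : XEF_stmt) (hTFG : TFG_stmt)
    (hHFG : HFG_stmt) (n : ℕ) : ∀ (V : Type) [AddCommGroup V] [Module ℚ V] [FiniteDimensional ℚ V]
    (Q : Type) [Group Q], finrank ℚ V = n → Group.IsSolvable Q → ∀ ρ : Q →* Module.End ℚ V,
    Function.Injective ρ → (∀ g, IsIntegral ℤ (ρ g)) → ∀ Λ : AddSubgroup V, Λ.FG →
    Submodule.span ℚ (Λ : Set V) = ⊤ → (∀ g, ∀ w ∈ Λ, ρ g w ∈ Λ) → XG Q := by
  induction n using Nat.strong_induction_on with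
  | _ n ih =>
  intro V _ _ _ Q _ hn hQ ρ hinj hint Λ hΛ hspan hst
  rcases subsingleton_or_nontrivial V with hV | hV
  · have hs : Subsingleton Q := ⟨fun x y => hinj (LinearMap.ext fun v => Subsingleton.elim _ _)⟩
    exact XMA_triv Q
  obtain ⟨G₁, L₀, hG₁, hL0, hL, hcomm, hmin⟩ := hSTR ℚ V Q hQ ρ
  apply hXEF.2 Q G₁ hG₁
  obtain ⟨lam, hlam⟩ := STP_lam ρ G₁ L₀ hL
  obtain ⟨mu, hmu⟩ := STP_mu ρ G₁ L₀ hL
  have hLnt : Nontrivial L₀ := Submodule.nontrivial_iff_ne_bot.2 hL0
  have hker : ∀ g : G₁, g ∈ lam.toHomUnits.ker → ∀ w ∈ L₀, ρ (g : Q) w = w := by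
    intro g hg w hw
    have hy2 : lam.toHomUnits g = 1 := MonoidHom.mem_ker.1 hg
    have hy4 : lam g = 1 := congrArg Units.val hy2
    have h5 := hlam g ⟨w, hw⟩
    rw [hy4] at h5
    exact h5.symm
  apply hXEF.1 G₁ (Module.End ℚ L₀)ˣ lam.toHomUnits
  · -- the kernel of `lam`
    apply hXEF.1 lam.toHomUnits.ker (Module.End ℚ (V ⧸ L₀))ˣ
      (mu.comp lam.toHomUnits.ker.subtype).toHomUnits
    · -- the unipotent part
      have hU : ∀ x : (mu.comp lam.toHomUnits.ker.subtype).toHomUnits.ker, ∀ v : V,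
          ρ (((x : lam.toHomUnits.ker) : G₁) : Q) v - v ∈ L₀ := by
        intro x v
        have h1 : (mu.comp lam.toHomUnits.ker.subtype).toHomUnits (x : lam.toHomUnits.ker) = 1 :=
          MonoidHom.mem_ker.1 x.2
        have h2 : mu ((x : lam.toHomUnits.ker) : G₁) = 1 := congrArg Units.val h1
        have h3 := hmu ((x : lam.toHomUnits.ker) : G₁) v
        rw [h2, Module.End.one_apply] at h3
        have h4 : L₀.mkQ (ρ (((x : lam.toHomUnits.ker) : G₁) : Q) v - v) = 0 := by
          rw [map_sub, ← h3]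
          exact sub_self _
        rwa [Submodule.mkQ_apply, Submodule.Quotient.mk_eq_zero] at h4
      suffices hH : (∀ x y : (mu.comp lam.toHomUnits.ker.subtype).toHomUnits.ker, x * y = y * x) ∧
          Group.FG (mu.comp lam.toHomUnits.ker.subtype).toHomUnits.ker from
        XMA_comm hXAB _ hH.1 hH.2
      refine hHFG V Λ hΛ hspan (mu.comp lam.toHomUnits.ker.subtype).toHomUnits.ker
        (fun x => ρ (((x : lam.toHomUnits.ker) : G₁) : Q) - 1) ?_ ?_ ?_
      · intro x y hxy
        have h3 : ρ (((x : lam.toHomUnits.ker) : G₁) : Q) = ρ (((y : lam.toHomUnits.ker) : G₁) : Q) :=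
          sub_left_injective hxy
        exact Subtype.ext (Subtype.ext (Subtype.ext (hinj h3)))
      · intro x y
        refine LinearMap.ext fun v => ?_
        have h3 := hker ((x : lam.toHomUnits.ker) : G₁) (x : lam.toHomUnits.ker).2 _ (hU y v)
        rw [map_sub] at h3
        have h4 : ρ ((((x * y : (mu.comp lam.toHomUnits.ker.subtype).toHomUnits.ker) :
            lam.toHomUnits.ker) : G₁) : Q) v = ρ (((x : lam.toHomUnits.ker) : G₁) : Q)
            (ρ (((y : lam.toHomUnits.ker) : G₁) : Q) v) := by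
          rw [Subgroup.coe_mul, Subgroup.coe_mul, Subgroup.coe_mul, map_mul]
          rfl
        rw [LinearMap.sub_apply, LinearMap.add_apply, LinearMap.sub_apply, LinearMap.sub_apply, h4,
          Module.End.one_apply]
        have h5 : ρ (((x : lam.toHomUnits.ker) : G₁) : Q) (ρ (((y : lam.toHomUnits.ker) : G₁) : Q) v) =
            ρ (((y : lam.toHomUnits.ker) : G₁) : Q) v - v + ρ (((x : lam.toHomUnits.ker) : G₁) : Q) v := by
          rw [← h3]
          abel
        rw [h5]
        abel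
      · intro x w hw
        rw [LinearMap.sub_apply, Module.End.one_apply]
        exact Λ.sub_mem (hst _ w hw) hw
    · -- the action on the quotient
      have hdim : finrank ℚ (V ⧸ L₀) + finrank ℚ L₀ = finrank ℚ V :=
        Submodule.finrank_quotient_add_finrank L₀
      have hpos : 0 < finrank ℚ L₀ := finrank_pos
      have hsK : Group.IsSolvable lam.toHomUnits.ker := by
        have : Group.IsSolvable G₁ := inferInstance
        infer_instance
      have hsR : Group.IsSolvable (mu.comp lam.toHomUnits.ker.subtype).toHomUnits.range :=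
        Group.isSolvable_of_surjective
          (f := (mu.comp lam.toHomUnits.ker.subtype).toHomUnits.rangeRestrict)
          (MonoidHom.rangeRestrict_surjective _)
      refine ih (finrank ℚ (V ⧸ L₀)) (by omega) (V ⧸ L₀)
        (mu.comp lam.toHomUnits.ker.subtype).toHomUnits.range rfl hsR
        ((Units.coeHom (Module.End ℚ (V ⧸ L₀))).comp
          (mu.comp lam.toHomUnits.ker.subtype).toHomUnits.range.subtype) ?_ ?_
        (Λ.map L₀.mkQ.toAddMonoidHom) ?_ ?_ ?_
      · intro u v huv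
        apply Subtype.ext
        exact Units.ext huv
      · rintro ⟨_, g, rfl⟩
        exact STP_int_quot L₀.mkQ (Submodule.mkQ_surjective L₀) (ρ ((g : G₁) : Q)) (mu g)
          (fun v => (hmu g v).symm) (hint _)
      · obtain ⟨S, hS⟩ := hΛ
        classical
        refine ⟨S.image L₀.mkQ.toAddMonoidHom, ?_⟩
        rw [← hS, Finset.coe_image, AddMonoidHom.map_closure]
      · have h1 : ((Λ.map L₀.mkQ.toAddMonoidHom : AddSubgroup (V ⧸ L₀)) : Set (V ⧸ L₀)) =
            L₀.mkQ '' (Λ : Set V) := rfl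
        rw [h1, Submodule.span_image, hspan, Submodule.map_top, Submodule.range_mkQ]
      · rintro ⟨_, g, rfl⟩ _ ⟨w, hw, rfl⟩
        refine ⟨ρ ((g : G₁) : Q) w, hst _ w hw, ?_⟩
        exact (hmu (g : G₁) w).symm
  · -- the torus part
    have hcR : ∀ x y : lam.toHomUnits.range, x * y = y * x := by
      rintro ⟨_, g, rfl⟩ ⟨_, h, rfl⟩
      apply Subtype.ext
      apply Units.ext
      show lam g * lam h = lam h * lam g
      rw [← map_mul, ← map_mul]
      ext w
      rw [hlam, hlam]
      exact hcomm g g.2 h h.2 w w.2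
    refine XMA_comm hXAB _ hcR (hTFG L₀ lam.toHomUnits.range
      ((Units.coeHom (Module.End ℚ L₀)).comp lam.toHomUnits.range.subtype) ?_ ?_ ?_ ?_)
    · intro u v huv
      apply Subtype.ext
      exact Units.ext huv
    · intro g h
      rw [← map_mul, ← map_mul, hcR]
    · intro W hW
      have hW' : ∀ g ∈ G₁, ∀ w ∈ W.map L₀.subtype, ρ g w ∈ W.map L₀.subtype := by
        rintro g hg _ ⟨w, hw, rfl⟩
        refine ⟨lam ⟨g, hg⟩ w, hW ⟨lam.toHomUnits ⟨g, hg⟩, ⟨g, hg⟩, rfl⟩ w hw, ?_⟩
        exact hlam ⟨g, hg⟩ w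
      rcases hmin (W.map L₀.subtype) (Submodule.map_subtype_le L₀ W) hW' with h | h
      · left
        rw [eq_bot_iff]
        intro w hw
        have hw2 : (w : V) ∈ W.map L₀.subtype := ⟨w, hw, rfl⟩
        rw [h, Submodule.mem_bot] at hw2
        exact (Submodule.mem_bot ℚ).2 (Subtype.ext hw2)
      · right
        rw [eq_top_iff]
        intro w _
        have hw : (w : V) ∈ W.map L₀.subtype := by rw [h]; exact w.2
        obtain ⟨w', hw', hww'⟩ := hw
        have : w' = w := Subtype.ext hww'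
        rwa [← this]
    · rintro ⟨_, g, rfl⟩
      exact STP_int_sub L₀.subtype (Submodule.subtype_injective L₀) (lam g) (ρ g)
        (fun v => hlam g v) (hint g)

theorem XMA (hSTR : SHL.STR_stmt) (hXAB : XAB_stmt) (hXEF : XEF_stmt) (hTFG : TFG_stmt)
    (hHFG : HFG_stmt) : XMA_stmt := by
  intro V _ _ _ Q _ hQ ρ hinj hint Λ hΛ hspan hst
  exact XMA_aux hSTR hXAB hXEF hTFG hHFG (finrank ℚ V) V Q rfl hQ ρ hinj hint Λ hΛ hspan hst

end Pool.Agent.SPV
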