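import Pool.Agent.helper73.BS.Asm4
import Pool.Agent.helper9.SPV.XAB
import Pool.Agent.helper75.SPV.XEF
import Pool.Agent.helper50.SPV.UFG
import Pool.Agent.helper64.SPV.TFG
import Pool.Agent.helper82.SPV.HFG
import Pool.Agent.helper73.SPV.XMA
import Pool.Agent.helper13.SPV.XSL
import Pool.Agent.helper31.SPV.SPH
import Pool.Agent.helper78.SPV.LOW
import Pool.Agent.helper89.SPV.CYC
import Pool.Agent.helper92.SPV.CNT
import Pool.Agent.helper74.SPV.LWA
import Pool.Agent.helper2.SPV.PBA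

/-!
# Project sp: assembly
-/

set_option autoImplicit false

namespace Pool.Agent.SPV

open Matrix Module Pool.Agent.SHL Pool.Agent.H48SL

theorem tXAB : XAB_stmt := XAB PBA SHL.HA

theorem tXEF : XEF_stmt := XEF PBA SHL.HA BS.HP

theorem tXMA : XMA_stmt := XMA SHL.tSTR tXAB tXEF (TFG UFG) HFG

theorem tXSL : XSL_stmt := XSL PBA tXMA

theorem tSPH : SPH_stmt := SPH SHL.HA PBA (CNT CYC) (LOW LWA) tXSL

end Pool.Agent.SPV
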