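import Pool.Agent.helper73.BS.Spec2
import Pool.Agent.helper48.SLn.Final

/-!
# Project sp (MP_a2a22c_al): products of virtually solvable subgroups

FINAL: `n ≥ 3`, `G` finitely generated, residually finite, with the same finite quotients as `SL(n, ℤ)`, not
isomorphic to `SL(n, ℤ)`. If `G = P_1 P_2 ⋯ P_k` with virtually solvable subgroups `P_i` then `k ≥ n + 1`.
Proof: count modulo `p ^ j`: the image of `P_i` has at most `C (p ^ j) ^ (n - 1)` elements (its Hirsch length is at most
`n - 1`), the image of `G` has at least `c (p ^ j) ^ (n ^ 2 - 1)`.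

Row `sp:XX` proves `theorem XX (hYY : YY_stmt) ... : XX_stmt` (exact line in its lock note) in
`Pool/Agent/<seat>/SPV/XX.lean`, `import Pool.Agent.helper73.SPV.Spec`, namespace `Pool.Agent.SPV`, auxiliary
lemmas with the prefix `XX_`. Other rows only as hypotheses. `Hi`, `HA_stmt`, `STR_stmt` are in
`Pool/Agent/helper73/SHL/Spec.lean`, `HP_stmt` in `Pool/Agent/helper73/BS/Spec2.lean` (proved, they enter as hypotheses);
`Cong`, `mem_Cong`, `ProfDense`, `ZDense` in `Pool/Agent/helper48/SLn`.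
-/

set_option autoImplicit false

namespace Pool.Agent.SPV

open Matrix Module Pool.Agent.SHL Pool.Agent.H48SL

/-- `SL(n, ℤ)` -/
abbrev SLn (n : ℕ) : Type := Matrix.SpecialLinearGroup (Fin n) ℤ

/-- reduction modulo `q` -/
abbrev red (n q : ℕ) : SLn n →* Matrix.SpecialLinearGroup (Fin n) (ZMod q) :=
  Matrix.SpecialLinearGroup.map (Int.castRingHom (ZMod q))

/-- `S` is contained in a product of `N` cyclic groups and finitely many finite sets (in some order). -/
def PB {G : Type} [Group G] : ℕ → Set G → Prop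
  | 0, S => S.Finite
  | N + 1, S => ∃ (F : Set G) (g : G) (T : Set G), F.Finite ∧ PB N T ∧
      ∀ x ∈ S, ∃ f ∈ F, ∃ m : ℤ, ∃ t ∈ T, x = f * g ^ m * t

/-- For some `N` the group is a product of `N` cyclic groups and finite sets, and has Hirsch length at least `N`. -/
def XG (Q : Type) [Group Q] : Prop := ∃ N : ℕ, PB N (Set.univ : Set Q) ∧ Hi N (⊤ : Subgroup Q)

/-- **PBA** (short-medium; basic properties of `PB`). All by induction on `N` (in (3) on `a`). (2): `N = 0` clear; `N + 1`: replace `F'` by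
`{f * f'}`. (3): `a = 0`: (2). `a + 1`: `s = f g ^ m t₀`, `s t = f g ^ m (t₀ t)`, induction for `T₀` and `T`. (`a + 1 + b = (a + b) + 1`: `Nat.succ_add`.)
(5): lift the finite set `F`, the element `g` and, by induction, `T` (`Function.surjInv`). -/
def PBA_stmt : Prop := ∀ (G : Type) [Group G],
  (∀ (N : ℕ) (S S' : Set G), S ⊆ S' → PB N S' → PB N S) ∧
  (∀ (N : ℕ) (F S : Set G), F.Finite → PB N S → PB N {x | ∃ f ∈ F, ∃ s ∈ S, x = f * s}) ∧
  (∀ (a b : ℕ) (S T : Set G), PB a S → PB b T → PB (a + b) {x | ∃ s ∈ S, ∃ t ∈ T, x = s * t}) ∧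
  (∀ (G' : Type) [Group G'] (φ : G →* G') (N : ℕ) (S : Set G), PB N S → PB N (φ '' S)) ∧
  (∀ (G' : Type) [Group G'] (φ : G →* G'), Function.Surjective φ → ∀ (N : ℕ) (S' : Set G'), PB N S' →
    ∃ S : Set G, PB N S ∧ S' ⊆ φ '' S)

/-- **CYC** (short-medium; cyclic groups modulo `p ^ (j + 1)`). `m₀` = the order of `red p g` (finite group). Induction on `i`: the entries of
`g ^ (m₀ p ^ i) - 1` are divisible by `p ^ (i + 1)`: if `X = 1 + Y`, `p ^ (i + 1) ∣ Y` then `X ^ p - 1 = p Y + Y ^ 2 (...)` (for example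
`Commute.add_pow` or `add_pow_two`-like lemmas; or: `X ^ p - 1 = Y ∑_{l < p} X ^ l` and `∑_{l < p} X ^ l ≡ p` modulo `Y`) is divisible by `p ^ (i + 2)`. So
`red (p ^ (j + 1)) g` has order at most `m₀ p ^ j`, and the number of its powers is its order. `C = m₀`. -/
def CYC_stmt : Prop := ∀ (n p : ℕ), p.Prime → ∀ g : SLn n, ∃ C : ℕ, ∀ j : ℕ,
  (Set.range fun m : ℤ => red n (p ^ (j + 1)) (g ^ m)).ncard ≤ C * p ^ j

/-- **CNT** (short-medium; from CYC). Induction on `N`. `N = 0`: `C` = the number of elements of `S`. `N + 1`: the image of `S` is contained in the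
image of the product of `red F`, the powers of `red g` and `red T` (the image of the finite set `A ×ˢ (B ×ˢ D)` under
`(a, b, d) ↦ a * b * d`; `SL(n, ℤ/q)` is finite for `q ≠ 0`, so all sets are finite): the product of the cardinalities. -/
def CNT_stmt : Prop := ∀ (n p : ℕ), p.Prime → ∀ (N : ℕ) (S : Set (SLn n)), PB N S → ∃ C : ℕ, ∀ j : ℕ,
  ((red n (p ^ (j + 1))) '' S).ncard ≤ C * (p ^ j) ^ N

/-- **LWA** (medium; one layer). `x = 1 + p ^ i B ↦ B` modulo `p` is a homomorphism from `Cong (p ^ i)` to the additive group of the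
`n × n`-matrices over `ZMod p` (`i ≥ 1`: `(1 + p ^ i B)(1 + p ^ i C) = 1 + p ^ i (B + C + p ^ i B C)`), with kernel `Cong (p ^ (i + 1))`. Its range `R` is an
additive subgroup, so a `ZMod p`-subspace. It contains `E_ab`, `a ≠ b` (transvections `1 + p ^ i E_ab`), and `E_aa - E_bb + E_ba`, `a ≠ b`
(the matrix with the entries `1 + p ^ i`, `p ^ (2 i)`, `p ^ i`, `1 - p ^ i + p ^ (2 i)` at `(a, a)`, `(a, b)`, `(b, a)`, `(b, b)`, determinant `1`), so all matrices of
trace zero: `M = ∑_{a ≠ b} M_ab E_ab + ∑_{a ≠ a₀} M_aa (E_aa - E_{a₀ a₀})`; these are a hyperplane (kernel of the trace), `p ^ (n ^ 2 - 1)` elements.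
(`Subgroup.relIndex` = the number of elements of the range.) For `n = 1`: `n * n - 1 = 0` is clear. To produce the two elements of `SL(n, ℤ)` one may also
multiply elementary matrices: with `q = p ^ i` the `2 × 2` matrix `!![1 + q, q ^ 2; q, 1 - q + q ^ 2]` has determinant `1`; or use conjugates
`e_ba(1) e_ab(q) e_ba(-1)` `≡ 1 + q (E_ab + E_bb - E_aa - E_ba)` which give `E_bb - E_aa` without a new matrix. -/
def LWA_stmt : Prop := ∀ (n p : ℕ), 1 ≤ n → p.Prime → ∀ i : ℕ, 1 ≤ i →
  p ^ (n * n - 1) ≤ (Cong (Fin n) (p ^ (i + 1))).relIndex (Cong (Fin n) (p ^ i))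

/-- **LOW** (short-medium; from LWA). `Cong (p ^ (i + 1)) ≤ Cong (p ^ i)`, so `(Cong (p ^ (j + 1))).index` is at least the product of the relative
indices for `1 ≤ i ≤ j` (`Subgroup.relIndex_mul_index`), induction on `j`; it is the number of elements of the range of `red` (`Subgroup.index_ker`). As
`H ⊔ Cong q = ⊤` (`Cong q` is normal of finite index, `cong_finiteIndex`), every element is `h c`, `red h = red (h c)`: the image of `H` is the range. -/
def LOW_stmt : Prop := ∀ (n p : ℕ), 1 ≤ n → p.Prime → ∀ H : Subgroup (SLn n), ProfDense H → ∀ j : ℕ,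
  (p ^ (n * n - 1)) ^ j ≤ ((red n (p ^ (j + 1))) '' (H : Set (SLn n))).ncard

/-- **XAB** (medium; finitely generated commutative groups). Claim for every finite set `s ⊆ Q` (induction): some `N` has
`PB N (closure s)` and `Hi N (closure s)`. `insert g s`: `K = closure s`, `closure (insert g s) = {g ^ m * t}`, `t ∈ K` (commutative). If
`g ^ j ∈ K` for some `j ≥ 1`: every element is `g ^ r t` with `0 ≤ r < j`: PBA (2), (1), and HA (1). Otherwise `N + 1`: `F = {1}`, and `Hi (N + 1)` with
`K`, `L = closure (insert g s)`. Finally `closure s = ⊤`. -/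
def XAB_stmt : Prop := ∀ (Q : Type) [CommGroup Q], Group.FG Q → XG Q

/-- **XEF** (short-medium; from PBA, `SHL.HA_stmt`, `BS.HP_stmt`; extensions and finite index). (1) `a`, `b` for `ker π`, `range π`. PBA (4) for the inclusion: `PB a (ker π)` in `Q`;
PBA (5) for `π.rangeRestrict`: `S ⊆ Q`, `PB b S`, whose image is the whole range; every `x ∈ Q` is `s k`, `s ∈ S`, `k ∈ ker π`: PBA (3), (1) for `b + a`. `Hi a` for `ker π = ⊤ ⊓ ker π` as a subgroup
of `Q`, `Hi b` for `⊤.map π` (`FLG_map` in `Pool/Agent/helper82/NH/FLG.lean`: images under injective homomorphisms; it may be imported): `Hi (a + b) ⊤` by HP (2).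
(2) representatives: `x = f g`, `g ∈ G₁`, `f` in a finite set; PBA (4), (2), (1); `FLG_map` and HA (1). -/
def XEF_stmt : Prop :=
  (∀ (Q Q' : Type) [Group Q] [Group Q'] (π : Q →* Q'), XG π.ker → XG π.range → XG Q) ∧
  (∀ (Q : Type) [Group Q] (G₁ : Subgroup Q), G₁.FiniteIndex → XG G₁ → XG Q)

/-- **UFG** (short-medium; Dirichlet's unit theorem). As in `Pool/Agent/helper63/SHL/UNT.lean` (which may be copied): the elements of `H` and their inverses are
integral, so `H` embeds in `(𝓞 K)ˣ`, which is finitely generated (Mathlib: `Monoid.FG (𝓞 K)ˣ`, or torsion finite and `basisModTorsion`), and subgroups of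
finitely generated commutative groups are finitely generated (noetherian `ℤ`-modules, `Additive`). -/
def UFG_stmt : Prop := ∀ (K : Type) [Field K] [NumberField K] (H : Subgroup Kˣ),
  (∀ u ∈ H, IsIntegral ℤ (u : K)) → Group.FG H

/-- **TFG** (medium; from UFG; commutative irreducible groups). Copy of `Pool/Agent/helper49/SHL/TOR.lean` for `D = ℚ` (it may be imported): `E = adjoin ℚ (range ρ)` is a number
field `K` (`TOR_field`), `g ↦ ρ g` is an injective homomorphism to `Kˣ` with integral values; UFG for its range. -/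
def TFG_stmt : Prop := ∀ (L : Type) [AddCommGroup L] [Module ℚ L] [FiniteDimensional ℚ L] [Nontrivial L]
    (Q : Type) [Group Q] (ρ : Q →* Module.End ℚ L), Function.Injective ρ → (∀ g h, ρ g * ρ h = ρ h * ρ g) →
  (∀ W : Submodule ℚ L, (∀ g, ∀ w ∈ W, ρ g w ∈ W) → W = ⊥ ∨ W = ⊤) → (∀ g, IsIntegral ℤ (ρ g)) →
  Group.FG Q

/-- **HFG** (short-medium; additive groups of endomorphisms of a lattice). `f (x y) = f (y x)`, so `Q` is commutative. `w_1, ..., w_r` generators of `Λ`; `x ↦ (f x w_i)_i` is an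
injective homomorphism from `Q` to the additive group `Fin r → Λ` (the `w_i` span `V`), a finitely generated `ℤ`-module, so noetherian. -/
def HFG_stmt : Prop := ∀ (V : Type) [AddCommGroup V] [Module ℚ V] [FiniteDimensional ℚ V] (Λ : AddSubgroup V),
  Λ.FG → Submodule.span ℚ (Λ : Set V) = ⊤ → ∀ (Q : Type) [Group Q] (f : Q → Module.End ℚ V),
  Function.Injective f → (∀ x y, f (x * y) = f x + f y) → (∀ x, ∀ w ∈ Λ, f x w ∈ Λ) →
  (∀ x y : Q, x * y = y * x) ∧ Group.FG Q

/-- **XMA** (medium-long; from `SHL.STR_stmt`, XAB, XEF, TFG, HFG; solvable groups which act on a lattice). Compare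
`Pool/Agent/helper82/NH/FLG.lean` (it may be imported, also `STP_lam`, `STP_mu`, `STP_int_sub`, `STP_int_quot` of `Pool/Agent/helper79/SHL/STP.lean`). Induction on `dim V` (for all `Q`, `ρ`, `Λ`).
`V = 0`: `Q` is trivial, `N = 0`. Otherwise STR for `D = ℚ`: `G₁` of finite index, `L ≠ ⊥`, irreducible and commutative. XEF (2): it is enough to treat `G₁`. `λ : G₁ →* (End L)ˣ`: XEF (1).
The range of `λ` is commutative and finitely generated (TFG for the group `λ.range`; integral), XAB (for the `CommGroup` structure, `Subsingleton`-type care: `XG` for the same multiplication). `K = ker λ`, `μ : K →* (End (V ⧸ L))ˣ`: XEF (1).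
The range of `μ` is solvable, acts injectively and integrally on `V ⧸ L` and preserves the image of `Λ` (finitely generated, spans): induction. `U = ker μ`: `f x = ρ x - 1` is `0` on `L` and maps `V` to `L`, so
`f (x y) = f x + f y`, injective, `f x Λ ⊆ Λ`: HFG, XAB. -/
def XMA_stmt : Prop := ∀ (V : Type) [AddCommGroup V] [Module ℚ V] [FiniteDimensional ℚ V] (Q : Type) [Group Q],
  Group.IsSolvable Q → ∀ ρ : Q →* Module.End ℚ V, Function.Injective ρ → (∀ g, IsIntegral ℤ (ρ g)) →
  ∀ Λ : AddSubgroup V, Λ.FG → Submodule.span ℚ (Λ : Set V) = ⊤ → (∀ g, ∀ w ∈ Λ, ρ g w ∈ Λ) → XG Q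

/-- **XSL** (short-medium; from PBA, XMA). `V = Fin n → ℚ`, `Λ` = the integer vectors, the group `P` with `ρ g = toLin' (stdM ℚ g)` (see the end of
`Pool/Agent/helper85/BS/HV.lean` for this `ρ` and its integrality): `XG P`; PBA (4) and `FLG_map` for the inclusion of `P`. -/
def XSL_stmt : Prop := ∀ (n : ℕ) (P : Subgroup (SLn n)), Group.IsSolvable P →
  ∃ N : ℕ, PB N (P : Set (SLn n)) ∧ Hi N P

/-- **SPH** (medium; from `SHL.HA_stmt`, PBA, CNT, LOW, XSL and the theorem on solvable subgroups). Let `S_i ≤ P_i` be solvable of finite relative index, `PB N_i S_i`,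
`Hi N_i S_i` (XSL); if `N_i ≥ n` then `Hi n S_i` (HA (2)) and `H` has finite index. So `N_i ≤ n - 1`; `P_i = F_i S_i` with a finite set `F_i`: `PB N_i P_i`. Induction on `k` (PBA (3)): the set of the products is
`PB (∑ N_i)`, so `PB (∑ N_i) H`. Let `k ≤ n`: `∑ N_i ≤ n (n - 1)`. For `p = 2`: `(2 ^ (n ^ 2 - 1)) ^ j ≤ C (2 ^ j) ^ (n (n - 1))` for all `j` (CNT, LOW), so
`2 ^ j ≤ (2 ^ (n - 1)) ^ j ≤ C` for all `j`, a contradiction. -/
def SPH_stmt : Prop := ∀ n : ℕ, 3 ≤ n → ∀ H : Subgroup (SLn n), ProfDense H →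
  (∀ S : Subgroup (SLn n), S ≤ H → Group.IsSolvable S → ¬ Hi n S) →
  ∀ (k : ℕ) (P : Fin k → Subgroup (SLn n)), (∀ i, P i ≤ H) →
    (∀ i, ∃ S : Subgroup (SLn n), S ≤ P i ∧ Group.IsSolvable S ∧ S.relIndex (P i) ≠ 0) →
    (∀ h ∈ H, ∃ a : Fin k → SLn n, (∀ i, a i ∈ P i) ∧ h = (List.ofFn a).prod) → n < k

end Pool.Agent.SPV
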